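import Pool.Agent.helper76.UF.Spec

/-!
# uf:UEO, even and odd exponents

Helper file for MP_37e5fa_nt (project uf).
-/

set_option autoImplicit false

namespace Pool.Agent.UF

open Finset Polynomial NumberField

section

variable {R : Type} [CommRing R]

/-- combinations of the powers of `x` with exponents of parity `e` -/
def UEO_P (N : ℕ) (x : R) (e : ℕ) : AddSubgroup R where
  carrier := {a | ∃ c : ℕ → ℤ, (∀ i, i % 2 ≠ e → c i = 0) ∧ a = ∑ i ∈ range N, (c i : R) * x ^ i}
  zero_mem' := ⟨fun _ => 0, fun _ _ => rfl, by simp⟩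
  add_mem' := by
    rintro a b ⟨c, hc, rfl⟩ ⟨d, hd, rfl⟩
    refine ⟨fun i => c i + d i, fun i hi => by
      show c i + d i = 0
      rw [hc i hi, hd i hi, add_zero], ?_⟩
    rw [← Finset.sum_add_distrib]
    refine Finset.sum_congr rfl fun i _ => ?_
    push_cast
    ring
  neg_mem' := by
    rintro a ⟨c, hc, rfl⟩
    refine ⟨fun i => - c i, fun i hi => by
      show - c i = 0
      rw [hc i hi, neg_zero], ?_⟩
    rw [← Finset.sum_neg_distrib]
    refine Finset.sum_congr rfl fun i _ => ?_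
    push_cast
    ring

theorem UEO_pow_lt (N : ℕ) (x : R) (r : ℕ) (hr : r < N) : x ^ r ∈ UEO_P N x (r % 2) := by
  refine ⟨fun i => if i = r then 1 else 0, ?_, ?_⟩
  · intro i hi
    have h : i ≠ r := by
      rintro rfl
      exact hi rfl
    show (if i = r then (1 : ℤ) else 0) = 0
    rw [if_neg h]
  · rw [Finset.sum_eq_single r]
    · show _ = ((if r = r then (1 : ℤ) else 0 : ℤ) : R) * x ^ r
      rw [if_pos rfl]
      push_cast
      rw [one_mul]
    · intro i _ hi
      show ((if i = r then (1 : ℤ) else 0 : ℤ) : R) * x ^ i = 0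
      rw [if_neg hi]
      push_cast
      rw [zero_mul]
    · intro h
      exact absurd (Finset.mem_range.2 hr) h

theorem UEO_pow (N : ℕ) (x : R) (hN : 1 ≤ N) (hN2 : Even N) (hx : x ^ N = -1) (k : ℕ) :
    x ^ k ∈ UEO_P N x (k % 2) := by
  have h1 : x ^ k = (-1) ^ (k / N) * x ^ (k % N) := by
    conv_lhs => rw [← Nat.div_add_mod k N]
    rw [pow_add, pow_mul, hx]
  have h2 : k % N % 2 = k % 2 := Nat.mod_mod_of_dvd k hN2.two_dvd
  have h3 := UEO_pow_lt N x (k % N) (Nat.mod_lt _ (by omega))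
  rw [h2] at h3
  rw [h1]
  rcases Nat.even_or_odd (k / N) with h | h
  · rw [h.neg_one_pow, one_mul]
    exact h3
  · rw [h.neg_one_pow, neg_one_mul]
    exact (UEO_P N x (k % 2)).neg_mem h3

theorem UEO_zero (N : ℕ) (x : R) (hB : Bas N x) (a a' : R) (ha : a ∈ UEO_P N x 0)
    (ha' : a' ∈ UEO_P N x 1) (h : a + a' = 0) : a = 0 ∧ a' = 0 := by
  obtain ⟨c, hc, rfl⟩ := ha
  obtain ⟨c', hc', rfl⟩ := ha'
  have h1 : ∑ i ∈ range N, ((c i + c' i : ℤ) : R) * x ^ i = 0 := by
    rw [← h, ← Finset.sum_add_distrib]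
    refine Finset.sum_congr rfl fun i _ => ?_
    push_cast
    ring
  have h2 := hB.2 _ h1
  have h3 : ∀ i, i < N → c i = 0 ∧ c' i = 0 := by
    intro i hi
    have h4 := h2 i hi
    rcases Nat.mod_two_eq_zero_or_one i with h5 | h5
    · have h6 := hc' i (by omega)
      rw [h6, add_zero] at h4
      exact ⟨h4, h6⟩
    · have h6 := hc i (by omega)
      rw [h6, zero_add] at h4
      exact ⟨h6, h4⟩
  constructor
  · refine Finset.sum_eq_zero fun i hi => ?_
    rw [(h3 i (Finset.mem_range.1 hi)).1]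
    push_cast
    rw [zero_mul]
  · refine Finset.sum_eq_zero fun i hi => ?_
    rw [(h3 i (Finset.mem_range.1 hi)).2]
    push_cast
    rw [zero_mul]

theorem UEO_mul (N : ℕ) (x : R) (hN : 1 ≤ N) (hN2 : Even N) (hx : x ^ N = -1) (b : R ≃+* R)
    (hb : b x = x ^ (2 * N - 1)) (c : ℕ → ℤ) (S T : Finset ℕ) (e : ℕ)
    (he : ∀ i ∈ S, ∀ j ∈ T, (i + j) % 2 = e) :
    (∑ i ∈ S, (c i : R) * x ^ i) * b (∑ i ∈ T, (c i : R) * x ^ i) ∈ UEO_P N x e := by
  rw [map_sum, Finset.sum_mul_sum]
  refine AddSubgroup.sum_mem _ fun i hi => AddSubgroup.sum_mem _ fun j hj => ?_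
  rw [map_mul, map_intCast, map_pow, hb]
  have h1 : (c i : R) * x ^ i * ((c j : R) * (x ^ (2 * N - 1)) ^ j) =
      (c i * c j) • x ^ (i + (2 * N - 1) * j) := by
    rw [zsmul_eq_mul, pow_add, pow_mul]
    push_cast
    ring
  rw [h1]
  refine AddSubgroup.zsmul_mem _ ?_ _
  have h2 := UEO_pow N x hN hN2 hx (i + (2 * N - 1) * j)
  have h3 : (i + (2 * N - 1) * j) % 2 = e := by
    rw [← he i hi j hj]
    obtain ⟨M, rfl⟩ : ∃ M, N = M + 1 := ⟨N - 1, by omega⟩
    have h4 : (2 * (M + 1) - 1) * j = 2 * (M * j) + j := by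
      have : 2 * (M + 1) - 1 = 2 * M + 1 := by omega
      rw [this]
      ring
    rw [h4]
    omega
  rw [h3] at h2
  exact h2

end

theorem UEO (h : CST_stmt) : UEO_stmt := by
  intro m R _ x b hm hB hbar c heq A B hA hBB
  set N : ℕ := 2 ^ m with hN
  have hN4 : 4 ≤ N := by
    calc 4 = 2 ^ 2 := by norm_num
      _ ≤ 2 ^ m := Nat.pow_le_pow_right (by norm_num) hm
  have hN2 : Even N := by
    rw [hN]
    exact (Nat.even_pow.2 ⟨even_two, by omega⟩)
  have hx := hB.1
  have hx2 : x ^ (2 * N) = 1 := by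
    rw [mul_comm, pow_mul, hx]
    norm_num
  have hb : b x = x ^ (2 * N - 1) := by
    have h1 : x ^ (2 * N - 1) * x = 1 := by
      rw [← pow_succ]
      have : 2 * N - 1 + 1 = 2 * N := by omega
      rw [this, hx2]
    calc b x = b x * (x ^ (2 * N - 1) * x) := by rw [h1, mul_one]
      _ = (b x * x) * x ^ (2 * N - 1) := by ring
      _ = x ^ (2 * N - 1) := by rw [hbar.1, one_mul]
  have hb' : b x = -x ^ (N - 1) := by
    rw [hb]
    have : 2 * N - 1 = N + (N - 1) := by omega
    rw [this, pow_add, hx, neg_one_mul]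
  have hS : ∑ i ∈ range N, (c i : R) * x ^ i = A + B := by
    rw [hA, hBB, Finset.sum_filter_add_sum_filter_not]
  -- the memberships
  have hE : ∀ i ∈ (range N).filter (fun i => Even i), i % 2 = 0 := fun i hi =>
    Nat.even_iff.1 (Finset.mem_filter.1 hi).2
  have hO : ∀ i ∈ (range N).filter (fun i => ¬ Even i), i % 2 = 1 := fun i hi =>
    Nat.not_even_iff.1 (Finset.mem_filter.1 hi).2
  have m1 : A * b A ∈ UEO_P N x 0 := by
    rw [hA]
    refine UEO_mul N x (by omega) hN2 hx b hb c _ _ 0 fun i hi j hj => ?_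
    have := hE i hi
    have := hE j hj
    omega
  have m2 : B * b B ∈ UEO_P N x 0 := by
    rw [hBB]
    refine UEO_mul N x (by omega) hN2 hx b hb c _ _ 0 fun i hi j hj => ?_
    have := hO i hi
    have := hO j hj
    omega
  have m3 : A * b B ∈ UEO_P N x 1 := by
    rw [hA, hBB]
    refine UEO_mul N x (by omega) hN2 hx b hb c _ _ 1 fun i hi j hj => ?_
    have := hE i hi
    have := hO j hj
    omega
  have m4 : B * b A ∈ UEO_P N x 1 := by
    rw [hA, hBB]
    refine UEO_mul N x (by omega) hN2 hx b hb c _ _ 1 fun i hi j hj => ?_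
    have := hO i hi
    have := hE j hj
    omega
  have m5 : (5 : R) ∈ UEO_P N x 0 := by
    have h1 := UEO_pow N x (by omega) hN2 hx 0
    have h2 := AddSubgroup.zsmul_mem _ h1 5
    have h3 : (5 : ℤ) • x ^ 0 = (5 : R) := by
      rw [zsmul_eq_mul, pow_zero, mul_one]
      norm_num
    rw [h3] at h2
    exact h2
  have m6 : x ∈ UEO_P N x 1 := by
    have h1 := UEO_pow N x (by omega) hN2 hx 1
    rw [pow_one] at h1
    exact h1
  have m7 : b x ∈ UEO_P N x 1 := by
    rw [hb]
    have h1 := UEO_pow N x (by omega) hN2 hx (2 * N - 1)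
    have h2 : (2 * N - 1) % 2 = 1 := by omega
    rw [h2] at h1
    exact h1
  have heq' : (A * b A + B * b B - 5) + (A * b B + B * b A + (x + b x) + (x + b x)) = 0 := by
    rw [hS, map_add] at heq
    linear_combination heq
  have hz := UEO_zero N x hB _ _ (AddSubgroup.sub_mem _ (AddSubgroup.add_mem _ m1 m2) m5)
    (AddSubgroup.add_mem _ (AddSubgroup.add_mem _ (AddSubgroup.add_mem _ m3 m4)
      (AddSubgroup.add_mem _ m6 m7)) (AddSubgroup.add_mem _ m6 m7)) heq'
  refine ⟨sub_eq_zero.1 hz.1, ?_, ?_⟩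
  · linear_combination hz.2
  · -- the constant coefficient
    have hd := h N R x b (by omega) hB hbar c
      (fun i => (if i = 0 then 5 else 0) + (if i = 1 then -2 else 0) + (if i = N - 1 then 2 else 0)) ?_
    · have h0 : (if (0 : ℕ) = N - 1 then (2 : ℤ) else 0) = 0 := if_neg (by omega)
      have h1 : (if (0 : ℕ) = 0 then (5 : ℤ) else 0) + (if (0 : ℕ) = 1 then -2 else 0) +
          (if (0 : ℕ) = N - 1 then 2 else 0) = ∑ i ∈ range N, (c i) ^ 2 := hd
      rw [h0] at h1
      rw [← h1]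
      norm_num
    · rw [heq, hb']
      have key : ∀ (k : ℕ) (v : ℤ), k < N →
          ∑ i ∈ range N, ((if i = k then v else 0 : ℤ) : R) * x ^ i = (v : R) * x ^ k := by
        intro k v hk
        rw [Finset.sum_eq_single k]
        · rw [if_pos rfl]
        · intro i _ hi
          rw [if_neg hi]
          push_cast
          rw [zero_mul]
        · intro hk'
          exact absurd (Finset.mem_range.2 hk) hk'
      have e1 : ∑ i ∈ range N, (((if i = 0 then 5 else 0) + (if i = 1 then -2 else 0) +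
          (if i = N - 1 then 2 else 0) : ℤ) : R) * x ^ i =
          ∑ i ∈ range N, ((if i = 0 then 5 else 0 : ℤ) : R) * x ^ i +
          ∑ i ∈ range N, ((if i = 1 then -2 else 0 : ℤ) : R) * x ^ i +
          ∑ i ∈ range N, ((if i = N - 1 then 2 else 0 : ℤ) : R) * x ^ i := by
        rw [← Finset.sum_add_distrib, ← Finset.sum_add_distrib]
        refine Finset.sum_congr rfl fun i _ => ?_
        push_cast
        ring
      show 5 - 2 * (x + -x ^ (N - 1)) = ∑ i ∈ range N, (((if i = 0 then 5 else 0) +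
        (if i = 1 then -2 else 0) + (if i = N - 1 then 2 else 0) : ℤ) : R) * x ^ i
      rw [e1, key 0 5 (by omega), key 1 (-2) (by omega), key (N - 1) 2 (by omega)]
      push_cast
      ring

end Pool.Agent.UF
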